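import Mathlib

/-!
# Latin cubes as sets of quadruples; exchanging parts with the same shadows
-/

set_option autoImplicit false

namespace Pool.Agent.KS6_69.LCB

open Function Finset

variable {X : Type}

/-- A Latin cube, as the set of its quadruples: every line in every direction contains exactly one
quadruple. -/
def IsCube (L : Set (Fin 4 → X)) : Prop :=
  ∀ (i : Fin 4) (t : Fin 4 → X), ∃! a : X, update t i a ∈ L

/-- `N` can replace `O`: every line which meets one of them meets the other, and every line meets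
`N` at most once. -/
structure IsTrade (O N : Set (Fin 4 → X)) : Prop where
  fwd : ∀ (i : Fin 4) (t : Fin 4 → X) (a : X), update t i a ∈ O → ∃ b, update t i b ∈ N
  bwd : ∀ (i : Fin 4) (t : Fin 4 → X) (a : X), update t i a ∈ N → ∃ b, update t i b ∈ O
  uniq : ∀ (i : Fin 4) (t : Fin 4 → X) (a b : X), update t i a ∈ N → update t i b ∈ N → a = b

/-- Simultaneous exchange of disjoint parts of a Latin cube. -/
theorem exchange {L : Set (Fin 4 → X)} (hL : IsCube L) {J : Type} (O N : J → Set (Fin 4 → X))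
    (hO : ∀ j, O j ⊆ L) (ht : ∀ j, IsTrade (O j) (N j))
    (hd : ∀ j k q, q ∈ O j → q ∈ O k → j = k) :
    IsCube {q | (q ∈ L ∧ ∀ j, q ∉ O j) ∨ ∃ j, q ∈ N j} := by
  have hu : ∀ (i : Fin 4) (t : Fin 4 → X) (a b : X), update t i a ∈ L → update t i b ∈ L →
      a = b := fun i t a b ha hb => (hL i t).unique ha hb
  intro i t
  obtain ⟨a, ha, -⟩ := hL i t
  have hex : ∃ c, update t i c ∈ {q | (q ∈ L ∧ ∀ j, q ∉ O j) ∨ ∃ j, q ∈ N j} := by
    by_cases h : ∃ j, update t i a ∈ O j
    · obtain ⟨j, hj⟩ := h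
      obtain ⟨b, hb⟩ := (ht j).fwd i t a hj
      exact ⟨b, Or.inr ⟨j, hb⟩⟩
    · push Not at h
      exact ⟨a, Or.inl ⟨ha, h⟩⟩
  obtain ⟨c, hc⟩ := hex
  refine ⟨c, hc, ?_⟩
  -- uniqueness
  have key : ∀ x y : X, update t i x ∈ {q | (q ∈ L ∧ ∀ j, q ∉ O j) ∨ ∃ j, q ∈ N j} →
      update t i y ∈ {q | (q ∈ L ∧ ∀ j, q ∉ O j) ∨ ∃ j, q ∈ N j} → x = y := by
    intro x y hx hy
    rcases hx with ⟨hx, hx'⟩ | ⟨j, hj⟩
    · rcases hy with ⟨hy, hy'⟩ | ⟨k, hk⟩
      · exact hu i t x y hx hy
      · obtain ⟨b, hb⟩ := (ht k).bwd i t y hk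
        have := hu i t x b hx (hO k hb)
        subst this
        exact absurd hb (hx' k)
    · obtain ⟨b, hb⟩ := (ht j).bwd i t x hj
      rcases hy with ⟨hy, hy'⟩ | ⟨k, hk⟩
      · have := hu i t y b hy (hO j hb)
        subst this
        exact absurd hb (hy' j)
      · obtain ⟨b', hb'⟩ := (ht k).bwd i t y hk
        have := hu i t b b' (hO j hb) (hO k hb')
        subst this
        have hjk := hd j k _ hb hb'
        subst hjk
        exact (ht j).uniq i t x y hj hk
  intro y hy
  exact key y c hy hc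

/-- relabelling a Latin cube -/
theorem IsCube.map {L : Set (Fin 4 → X)} (hL : IsCube L) (σ : Fin 4 → Equiv.Perm X) :
    IsCube {q | (fun i => (σ i).symm (q i)) ∈ L} := by
  intro i t
  obtain ⟨a, ha, hu⟩ := hL i (fun i => (σ i).symm (t i))
  have e : ∀ b, (fun j => (σ j).symm (update t i b j)) =
      update (fun j => (σ j).symm (t j)) i ((σ i).symm b) := by
    intro b
    funext j
    by_cases h : j = i
    · subst h; simp
    · simp [h]
  refine ⟨σ i a, ?_, ?_⟩
  · simp only [Set.mem_ofPred_eq, e]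
    simpa using ha
  · intro b hb
    simp only [Set.mem_ofPred_eq, e] at hb
    have := hu _ hb
    rw [← this]; simp

end Pool.Agent.KS6_69.LCB
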