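import Pool.Agent.KS6_69.LCB.Expl

/-!
# The trade system of the Latin square
-/

set_option autoImplicit false

namespace Pool.Agent.KS6_69.LCB

open Function Finset

theorem k1 : ∀ k i : G, k + e0 + (k + i) = i + e0 := by decide
theorem k2 : ∀ k : G, k + e0 + tau (tau k) = tau k + e0 := by decide

/-- types with the same signs of the next two types -/
def rel (i j : G) : Prop := j = i ∨ (i.1 = 1 ∧ j.1 = 1)

instance (i j : G) : Decidable (rel i j) := by unfold rel; infer_instance

theorem rel_self : ∀ i : G, rel i i := by decide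
theorem rel_iff : ∀ i i' : G, rel i i' → ∀ j, (rel i' j ↔ rel i j) := by decide
theorem rel_cases : ∀ i i' : G, rel i i' → i' = i ∨ (i = (1, 0) ∧ i' = (1, 1)) ∨
    (i = (1, 1) ∧ i' = (1, 0)) := by decide
theorem G_cases : ∀ i : G, i = (0, 0) ∨ i = (1, 0) ∨ i = (0, 1) ∨ i = (1, 1) := by decide

namespace Par

variable {A R : Type} [CommRing A] [AddCommGroup R] (P : Par A R)
variable [DecidableEq A] [Fintype R] [DecidableEq R]

theorem closed (w : (G × A) ⊕ R) (b : A) (x : (G × A) ⊕ R) :
    P.row (W w b) (P.col w x) ∈ P.S w b x := by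
  rcases w with ⟨k, a⟩ | h0 <;> rcases x with ⟨i, u⟩ | h
  · simp only [col]
    cases e : P.sp i u (k + i) (chi A i * a - u) with
    | some h =>
      obtain ⟨e1, e2⟩ := P.sp_some.1 e
      have e3 := g1 k i e1
      have hx : ((i, u) : G × A) = P.pr (k, a) h := by
        simp only [pr, ← e3]
        congr 1
        apply P.half'
        rw [P.half]
        linear_combination -e2
      have hH : (Sum.inl (i, u) : (G × A) ⊕ R) ∈ P.H (.inl (k, a)) b := by
        refine P.Ps_H ?_
        rw [hx]
        exact mem_union_left _ (mem_image_of_mem _ (mem_univ _))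
      rw [P.S_of_mem hH]
      simp only [Option.elim_some, W, row]
      refine P.Ps_H ?_
      exact mem_union_right _ (mem_image.2 ⟨h, mem_univ _, rfl⟩)
    | none =>
      simp only [Option.elim_none, W, row, k1]
      have e1 : chi A (i + e0) * b - (chi A i * a - u) = u - chi A i * (a + b) := by
        rw [chi_e0]; ring
      rw [e1]
      cases e' : P.sp (i + e0) (u - chi A i * (a + b)) (k + i) (chi A i * a - u) with
      | none =>
        simp only [Option.elim_none]
        exact P.S_orb (P.orb_closed (P.self_orb (.inl (k, a)) b (i, u)))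
      | some h =>
        obtain ⟨e2, e3⟩ := P.sp_some.1 e'
        have e4 : k + e0 + (i + e0) = tau (i + e0) := by
          rw [← e2]
          have : ∀ k i : G, k + e0 + (i + e0) = k + i := by decide
          exact this k i
        have e5 := g1 _ _ e4
        have hx : P.pi0 (.inl (k, a)) b (i, u) = P.pr (k + e0, b) h := by
          simp only [pi0, pr, ← e5]
          congr 1
          apply P.half'
          rw [P.half, ← e1]
          rw [← e1] at e3
          linear_combination -e3
        have hH : (Sum.inl (i, u) : (G × A) ⊕ R) ∈ P.H (.inl (k, a)) b := by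
          have h1 : (Sum.inl (P.pi0 (.inl (k, a)) b (i, u)) : (G × A) ⊕ R) ∈
              P.H (.inl (k, a)) b := by
            refine P.Ps_H ?_
            rw [hx]
            exact mem_union_right _ (mem_image_of_mem _ (mem_univ _))
          exact P.H_orb h1 (P.orb_symm (P.orb_closed (P.self_orb _ _ _)))
        rw [P.S_of_mem hH]
        exact P.inr_H _ _ _
  · have hH : (Sum.inr h : (G × A) ⊕ R) ∈ P.H (.inl (k, a)) b := P.inr_H _ _ _
    rw [P.S_of_mem hH]
    simp only [col, W, row, k2]
    have e1 : chi A (tau k + e0) * b - (chi A (tau k) * a - P.c h) * P.i2 =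
        (P.pi0 (.inl (k, a)) b (P.pr (k, a) h)).2 := by
      simp only [pi0, pr, chi_e0]
      have := P.half (chi A (tau k) * a)
      linear_combination -this
    rw [e1]
    cases e : P.sp (tau k + e0) (P.pi0 (.inl (k, a)) b (P.pr (k, a) h)).2 (tau (tau k))
        ((chi A (tau k) * a - P.c h) * P.i2) with
    | some h' => exact P.inr_H _ _ _
    | none =>
      simp only [Option.elim_none]
      have h1 : (Sum.inl (P.pr (k, a) h) : (G × A) ⊕ R) ∈ P.H (.inl (k, a)) b :=
        P.Ps_H (mem_union_left _ (mem_image_of_mem _ (mem_univ _)))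
      exact P.H_orb h1 (P.orb_closed (P.self_orb _ _ _))
  · simp only [col, W, row, zero_add]
    have e1 : chi A (tau i) * b - (u - P.c h0) = chi A (tau i) * b + P.c h0 - u := by ring
    rw [e1]
    cases e : P.sp (tau i) (chi A (tau i) * b + P.c h0 - u) (tau i) (u - P.c h0) with
    | none =>
      simp only [Option.elim_none]
      exact P.S_orb (P.orb_closed (P.self_orb (.inr h0) b (i, u)))
    | some h =>
      obtain ⟨e2, e3⟩ := P.sp_some.1 e
      have e4 : (0 : G) + tau i = tau (tau i) := by rw [zero_add]; exact e2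
      have e5 := g1 _ _ e4
      have hx : P.pi0 (.inr h0) b (i, u) = P.pr (0, b) h := by
        simp only [pi0, pr, ← e5]
        congr 1
        apply P.half'
        rw [P.half]
        linear_combination -e3
      have hH : (Sum.inl (i, u) : (G × A) ⊕ R) ∈ P.H (.inr h0) b := by
        have h1 : (Sum.inl (P.pi0 (.inr h0) b (i, u)) : (G × A) ⊕ R) ∈ P.H (.inr h0) b := by
          refine P.Ps_H ?_
          rw [hx]
          exact mem_image_of_mem _ (mem_univ _)
        exact P.H_orb h1 (P.orb_symm (P.orb_closed (P.self_orb _ _ _)))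
      rw [P.S_of_mem hH]
      exact P.inr_H _ _ _
  · have hH : (Sum.inr h : (G × A) ⊕ R) ∈ P.H (.inr h0) b := P.inr_H _ _ _
    rw [P.S_of_mem hH]
    simp only [col, W, row]
    exact P.Ps_H (mem_image.2 ⟨h0 - h, mem_univ _, rfl⟩)

/-- the constant part of the exceptional closed set -/
def Hc (w : G × A) : Finset ((G × A) ⊕ R) :=
  univ.image Sum.inr ∪ univ.image (fun h => Sum.inl (P.pr w h))

/-- the classes -/
def cl : (G × A) ⊕ R → (G × A) ⊕ R → Finset ((G × A) ⊕ R)
  | .inl w, x => if x ∈ P.Hc w then P.Hc w else {x}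
  | .inr _, .inr _ => univ.image Sum.inr
  | .inr _, .inl (i, u) => (univ.filter (rel i)).image (fun j => Sum.inl (j, u))

omit [AddCommGroup R] in
theorem cl_self (w x : (G × A) ⊕ R) : x ∈ P.cl w x := by
  rcases w with w | h
  · simp only [cl]
    split_ifs with h
    · exact h
    · exact mem_singleton_self _
  · rcases x with ⟨i, u⟩ | h'
    · simp only [cl]
      exact mem_image.2 ⟨i, mem_filter.2 ⟨mem_univ _, rel_self i⟩, rfl⟩
    · simp [cl]

omit [AddCommGroup R] in
theorem cl_eq (w x y : (G × A) ⊕ R) (hy : y ∈ P.cl w x) : P.cl w y = P.cl w x := by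
  rcases w with w | h
  · by_cases h1 : x ∈ P.Hc w
    · have h2 : P.cl (.inl w) x = P.Hc w := by simp only [cl, if_pos h1]
      rw [h2] at hy ⊢
      simp only [cl, if_pos hy]
    · have h2 : P.cl (.inl w) x = {x} := by simp only [cl, if_neg h1]
      rw [h2, mem_singleton] at hy
      rw [hy]
  · rcases x with ⟨i, u⟩ | h'
    · simp only [cl] at hy
      obtain ⟨j, hj, rfl⟩ := mem_image.1 hy
      rw [mem_filter] at hj
      simp only [cl]
      congr 1
      ext l
      simp only [mem_filter, mem_univ, true_and]
      exact rel_iff i j hj.2 l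
    · simp only [cl, mem_image, mem_univ, true_and] at hy
      obtain ⟨h2, rfl⟩ := hy
      simp only [cl]

omit [AddCommGroup R] in
theorem Hc_sub (k : G) (a b : A) : P.Hc (k, a) ⊆ P.H (.inl (k, a)) b := by
  intro x hx
  simp only [Hc, mem_union, mem_image, mem_univ, true_and] at hx
  rcases hx with ⟨h, rfl⟩ | ⟨h, rfl⟩
  · exact P.inr_H _ _ _
  · exact P.Ps_H (mem_union_left _ (mem_image_of_mem _ (mem_univ _)))

omit [AddCommGroup R] in
theorem cl_sub (w : (G × A) ⊕ R) (b : A) (x : (G × A) ⊕ R) : P.cl w x ⊆ P.S w b x := by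
  rcases w with ⟨k, a⟩ | h
  · simp only [cl]
    split_ifs with h
    · rw [P.S_of_mem (P.Hc_sub k a b h)]
      exact P.Hc_sub k a b
    · rw [singleton_subset_iff]
      exact P.S_self _ _ _
  · rcases x with ⟨i, u⟩ | h'
    · intro y hy
      simp only [cl] at hy
      obtain ⟨j, hj, rfl⟩ := mem_image.1 hy
      rw [mem_filter] at hj
      apply P.S_orb
      obtain ⟨-, q2, -, q4, -, -⟩ := P.pi0_inr h b i u
      rcases rel_cases i j hj.2 with rfl | ⟨rfl, rfl⟩ | ⟨rfl, rfl⟩
      · exact P.self_orb _ _ _
      · refine P.mem_orb.2 ⟨2, by norm_num, ?_⟩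
        rw [q2]
        have t2 : tau (tau ((1, 0) : G)) = (1, 1) := by decide
        have t1 : tau ((1, 0) : G) = (0, 1) := by decide
        rw [t2, t1]
        have c1 : chi A ((1, 1) : G) = -1 := by unfold chi; rw [if_neg (by decide)]
        have c2 : chi A ((0, 1) : G) = -1 := by unfold chi; rw [if_neg (by decide)]
        rw [c1, c2]
        congr 1
        ring
      · refine P.mem_orb.2 ⟨4, by norm_num, ?_⟩
        rw [q4]
        have t2 : tau (tau ((1, 1) : G)) = (0, 1) := by decide
        have t1 : tau ((1, 1) : G) = (1, 0) := by decide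
        rw [t2, t1]
        have c1 : chi A ((1, 1) : G) = -1 := by unfold chi; rw [if_neg (by decide)]
        have c2 : chi A ((0, 1) : G) = -1 := by unfold chi; rw [if_neg (by decide)]
        rw [c1, c2]
        congr 1
        ring
    · rw [P.S_of_mem (P.inr_H _ _ _)]
      intro y hy
      simp only [cl, mem_image, mem_univ, true_and] at hy
      obtain ⟨h2, rfl⟩ := hy
      exact P.inr_H _ _ _

omit [AddCommGroup R] in
theorem cl_sub' (w : (G × A) ⊕ R) (b : A) (x : (G × A) ⊕ R) :
    P.cl (W w b) x ⊆ P.S w b x := by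
  rcases w with ⟨k, a⟩ | h
  · simp only [cl, W]
    have h1 : P.Hc (k + e0, b) ⊆ P.H (.inl (k, a)) b := by
      intro x hx
      simp only [Hc, mem_union, mem_image, mem_univ, true_and] at hx
      rcases hx with ⟨h, rfl⟩ | ⟨h, rfl⟩
      · exact P.inr_H _ _ _
      · exact P.Ps_H (mem_union_right _ (mem_image_of_mem _ (mem_univ _)))
    split_ifs with h
    · rw [P.S_of_mem (h1 h)]
      exact h1
    · rw [singleton_subset_iff]
      exact P.S_self _ _ _
  · simp only [cl, W]
    have h1 : P.Hc (0, b) ⊆ P.H (.inr h) b := by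
      intro x hx
      simp only [Hc, mem_union, mem_image, mem_univ, true_and] at hx
      rcases hx with ⟨h, rfl⟩ | ⟨h, rfl⟩
      · exact P.inr_H _ _ _
      · exact P.Ps_H (mem_image_of_mem _ (mem_univ _))
    split_ifs with h
    · rw [P.S_of_mem (h1 h)]
      exact h1
    · rw [singleton_subset_iff]
      exact P.S_self _ _ _

end Par

end Pool.Agent.KS6_69.LCB
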