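import Pool.Agent.KS6_69.LCB.TS
import Pool.Agent.KS6_69.LCB.Haxell

/-!
# Trade systems; disjoint trades by Haxell's theorem
-/

set_option autoImplicit false

namespace Pool.Agent.KS6_69.LCB

open Function Finset

/-- A Latin square with many short symbol cycles. `W w b` are the symbols which are exchanged with
`w`; `S w b x` is a set of rows containing `x`, of bounded size, in which `w` and `W w b` occur in
the same columns; `cl w x` is the part of it which does not depend on `b`. -/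
structure TS (X B : Type) [Fintype X] [DecidableEq X] [Fintype B] [DecidableEq B] (K : ℕ)
    extends LS X where
  W : X → B → X
  W_inj : ∀ w, Function.Injective (W w)
  W_ne : ∀ w b, W w b ≠ w
  cl : X → X → Finset X
  cl_self : ∀ w x, x ∈ cl w x
  cl_eq : ∀ w x y, y ∈ cl w x → cl w y = cl w x
  S : X → B → X → Finset X
  S_self : ∀ w b x, x ∈ S w b x
  S_eq : ∀ w b x y, y ∈ S w b x → S w b y = S w b x
  S_card : ∀ w b x, (S w b x).card ≤ K
  closed : ∀ w b x, row (W w b) (col w x) ∈ S w b x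
  cl_sub : ∀ w b x, cl w x ⊆ S w b x
  cl_sub' : ∀ w b x, cl (W w b) x ⊆ S w b x
  spread : ∀ w x u, u ∉ cl w x → (univ.filter (fun b => u ∈ S w b x)).card ≤ K
  E : Finset X
  E_card : E.card ≤ K
  back : ∀ w b, w ∉ E → ∃ b', W (W w b) b' = w ∧ ∀ x, S (W w b) b' x = S w b x

namespace TS

variable {X B : Type} [Fintype X] [DecidableEq X] [Fintype B] [DecidableEq B] {K : ℕ}
  (T : TS X B K)

theorem clo (w : X) (b : B) (x : X) : T.Clo w (T.W w b) (T.S w b x : Set X) := by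
  have hmaps : ∀ y ∈ T.S w b x, T.row (T.W w b) (T.col w y) ∈ T.S w b x := by
    intro y hy
    rw [← T.S_eq w b x y hy]
    exact T.closed w b y
  have hinj : Set.InjOn (fun y => T.row (T.W w b) (T.col w y)) (T.S w b x : Set X) := by
    intro y _ z _ h
    simp only at h
    have h2 : T.col w y = T.col w z := by
      rw [← T.col_row (T.W w b) (T.col w y), h, T.col_row]
    exact T.toLS.col_inj h2
  constructor
  · intro y hy
    exact ⟨_, hmaps y hy, T.col_row _ _⟩
  · intro y hy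
    obtain ⟨z, hz, e⟩ := surj_on_of_inj_on_of_card_le (s := T.S w b x) (t := T.S w b x)
      (fun y _ => T.row (T.W w b) (T.col w y)) (fun y hy => hmaps y hy)
      (fun y z hy hz h => hinj hy hz h) le_rfl y hy
    refine ⟨z, hz, ?_⟩
    rw [e, T.col_row]

/-- the dangerous quadruples -/
def D (w x y : X) (b : B) : Finset (Fin 4 → X) :=
  (T.S w b x ×ˢ T.S w b y).image (fun p => T.mq w (T.W w b) p.1 p.2) ∪
  (T.S w b x ×ˢ T.S w b y).image (fun p => T.mq (T.W w b) w p.1 p.2) ∪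
  (T.S w b x ×ˢ T.S w b y).image (fun p => T.qd (T.W w b) p.1 p.2) ∪
  ((T.S w b x ×ˢ T.S w b y).filter (fun p => ¬ (p.1 ∈ T.cl w x ∧ p.2 ∈ T.cl w y))).image
    (fun p => T.qd w p.1 p.2)

theorem prod_card (w x y : X) (b : B) : (T.S w b x ×ˢ T.S w b y).card ≤ K * K := by
  rw [card_product]
  exact Nat.mul_le_mul (T.S_card _ _ _) (T.S_card _ _ _)

theorem D_card (w x y : X) (b : B) : (T.D w x y b).card ≤ 4 * (K * K) := by
  have h := T.prod_card w x y b
  unfold D
  refine (card_union_le _ _).trans ?_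
  have h1 := (card_union_le
    ((T.S w b x ×ˢ T.S w b y).image (fun p => T.mq w (T.W w b) p.1 p.2) ∪
    (T.S w b x ×ˢ T.S w b y).image (fun p => T.mq (T.W w b) w p.1 p.2))
    ((T.S w b x ×ˢ T.S w b y).image (fun p => T.qd (T.W w b) p.1 p.2)))
  have h2 := (card_union_le
    ((T.S w b x ×ˢ T.S w b y).image (fun p => T.mq w (T.W w b) p.1 p.2))
    ((T.S w b x ×ˢ T.S w b y).image (fun p => T.mq (T.W w b) w p.1 p.2)))
  have h3 : ((T.S w b x ×ˢ T.S w b y).image (fun p => T.mq w (T.W w b) p.1 p.2)).card ≤ _ :=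
    card_image_le
  have h4 : ((T.S w b x ×ˢ T.S w b y).image (fun p => T.mq (T.W w b) w p.1 p.2)).card ≤ _ :=
    card_image_le
  have h5 : ((T.S w b x ×ˢ T.S w b y).image (fun p => T.qd (T.W w b) p.1 p.2)).card ≤ _ :=
    card_image_le
  have h6 : (((T.S w b x ×ˢ T.S w b y).filter
      (fun p => ¬ (p.1 ∈ T.cl w x ∧ p.2 ∈ T.cl w y))).image
      (fun p => T.qd w p.1 p.2)).card ≤ _ := card_image_le
  have h7 := card_filter_le (T.S w b x ×ˢ T.S w b y)
    (fun p => ¬ (p.1 ∈ T.cl w x ∧ p.2 ∈ T.cl w y))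
  omega

/-- the moving coordinates -/
def mv (w x y : X) (b : B) (i : Fin 4) (u : X) : Prop :=
  (i = 0 ∧ u ∈ T.S w b x ∧ u ∉ T.cl w x) ∨
  (i = 1 ∧ ∃ x' ∈ T.cl w x, u = T.col (T.W w b) x') ∨
  (i = 2 ∧ u ∈ T.S w b y ∧ u ∉ T.cl w y) ∨
  (i = 3 ∧ ∃ y' ∈ T.cl w y, u = T.col (T.W w b) y')

theorem mv_aux (w x u : X) (R : Finset B) (hR : ∀ b ∈ R, u ∈ T.S w b x ∧ u ∉ T.cl w x) :
    R.card ≤ K := by
  rcases R.eq_empty_or_nonempty with rfl | ⟨b0, hb0⟩
  · simp
  · refine (card_le_card ?_).trans (T.spread w x u (hR b0 hb0).2)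
    intro b hb
    rw [mem_filter]
    exact ⟨mem_univ _, (hR b hb).1⟩

theorem mv_aux' (w x u : X) (R : Finset B)
    (hR : ∀ b ∈ R, ∃ x' ∈ T.cl w x, u = T.col (T.W w b) x') : R.card ≤ K := by
  rcases R.eq_empty_or_nonempty with rfl | ⟨b0, hb0⟩
  · simp
  · have hne : Nonempty X := ⟨x⟩
    choose! f hf hf' using hR
    have : R.card ≤ (T.cl w x).card := by
      refine card_le_card_of_injOn f (fun b hb => hf b hb) ?_
      intro b hb c hc h
      have h1 := hf' b hb
      have h2 := hf' c hc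
      rw [h1, ← h] at h2
      exact T.W_inj w (T.toLS.col_inj' h2)
    exact this.trans ((card_le_card (T.cl_sub w b0 x)).trans (T.S_card w b0 x))

theorem mv_bound (w x y : X) (i : Fin 4) (u : X) (R : Finset B)
    (hR : ∀ b ∈ R, T.mv w x y b i u) : R.card ≤ K := by
  have h01 : ¬ ((0 : Fin 4) = 1) := by decide
  fin_cases i
  · refine T.mv_aux w x u R fun b hb => ?_
    simpa [mv] using hR b hb
  · refine T.mv_aux' w x u R fun b hb => ?_
    simpa [mv] using hR b hb
  · refine T.mv_aux w y u R fun b hb => ?_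
    simpa [mv] using hR b hb
  · refine T.mv_aux' w y u R fun b hb => ?_
    simpa [mv] using hR b hb

theorem D_mv (w x y : X) (b : B) (q : Fin 4 → X) (hq : q ∈ T.D w x y b) :
    ∃ i, T.mv w x y b i (q i) := by
  unfold D at hq
  simp only [mem_union, mem_image, mem_product, mem_filter, Prod.exists] at hq
  rcases hq with ((⟨x', y', ⟨hx, hy⟩, rfl⟩ | ⟨x', y', ⟨hx, hy⟩, rfl⟩) |
    ⟨x', y', ⟨hx, hy⟩, rfl⟩) | ⟨x', y', ⟨⟨hx, hy⟩, hn⟩, rfl⟩
  · by_cases h : y' ∈ T.cl w y
    · exact ⟨3, Or.inr (Or.inr (Or.inr ⟨rfl, y', h, by simp [LS.mq]⟩))⟩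
    · exact ⟨2, Or.inr (Or.inr (Or.inl ⟨rfl, by simpa [LS.mq] using hy, by simpa [LS.mq] using h⟩))⟩
  · by_cases h : x' ∈ T.cl w x
    · exact ⟨1, Or.inr (Or.inl ⟨rfl, x', h, by simp [LS.mq]⟩)⟩
    · exact ⟨0, Or.inl ⟨rfl, by simpa [LS.mq] using hx, by simpa [LS.mq] using h⟩⟩
  · by_cases h : x' ∈ T.cl w x
    · exact ⟨1, Or.inr (Or.inl ⟨rfl, x', h, by simp [LS.qd]⟩)⟩
    · exact ⟨0, Or.inl ⟨rfl, by simpa [LS.qd] using hx, by simpa [LS.qd] using h⟩⟩
  · by_cases h : x' ∈ T.cl w x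
    · have h' : y' ∉ T.cl w y := fun h' => hn ⟨h, h'⟩
      exact ⟨2, Or.inr (Or.inr (Or.inl ⟨rfl, by simpa [LS.qd] using hy,
        by simpa [LS.qd] using h'⟩))⟩
    · exact ⟨0, Or.inl ⟨rfl, by simpa [LS.qd] using hx, by simpa [LS.qd] using h⟩⟩

/-- Some quadruple of permutations has few bad `b` for all symbols and pairs of rows. -/
theorem exists_sigma {F : Finset (Fin 4 → X)} {k : ℕ} (hF : Sparse F k) (t m : ℕ)
    (htm : t + m ≤ Fintype.card X)
    (hnum : Fintype.card X ^ 3 * (4 * 2 ^ (4 * (K * K) * Fintype.card B) * k ^ t) < m ^ t) :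
    ∃ σ : Fin 4 → Equiv.Perm X, ∀ w x y, (badb F (T.D w x y) σ).card ≤ 4 * K * t := by
  classical
  by_contra hcon
  push Not at hcon
  have h1 : (univ : Finset (Fin 4 → Equiv.Perm X)) ⊆ (univ : Finset (X × X × X)).biUnion
      (fun p => univ.filter (fun σ => 4 * K * t < (badb F (T.D p.1 p.2.1 p.2.2) σ).card)) := by
    intro σ _
    obtain ⟨w, x, y, h⟩ := hcon σ
    rw [mem_biUnion]
    exact ⟨(w, x, y), mem_univ _, by rw [mem_filter]; exact ⟨mem_univ _, h⟩⟩
  have h2 : ∀ p : X × X × X,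
      (univ.filter (fun σ : Fin 4 → Equiv.Perm X =>
        4 * K * t < (badb F (T.D p.1 p.2.1 p.2.2) σ).card)).card * m ^ t ≤
      4 * 2 ^ (4 * (K * K) * Fintype.card B) *
        (k ^ t * Fintype.card (Fin 4 → Equiv.Perm X)) := fun p =>
    card_bad_le hF (T.mv p.1 p.2.1 p.2.2) K t m _ (T.mv_bound _ _ _) (T.D_mv _ _ _)
      (T.D_card _ _ _) htm
  have h3 : Fintype.card (Fin 4 → Equiv.Perm X) * m ^ t ≤
      Fintype.card X ^ 3 * (4 * 2 ^ (4 * (K * K) * Fintype.card B) *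
        (k ^ t * Fintype.card (Fin 4 → Equiv.Perm X))) := by
    calc Fintype.card (Fin 4 → Equiv.Perm X) * m ^ t
        ≤ (∑ p : X × X × X, (univ.filter (fun σ : Fin 4 → Equiv.Perm X =>
            4 * K * t < (badb F (T.D p.1 p.2.1 p.2.2) σ).card)).card) * m ^ t := by
          refine Nat.mul_le_mul_right _ ?_
          rw [← card_univ]
          exact (card_le_card h1).trans card_biUnion_le
      _ = ∑ p : X × X × X, (univ.filter (fun σ : Fin 4 → Equiv.Perm X =>
            4 * K * t < (badb F (T.D p.1 p.2.1 p.2.2) σ).card)).card * m ^ t := by rw [sum_mul]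
      _ ≤ ∑ _p : X × X × X, 4 * 2 ^ (4 * (K * K) * Fintype.card B) *
            (k ^ t * Fintype.card (Fin 4 → Equiv.Perm X)) := sum_le_sum fun p _ => h2 p
      _ = _ := by
          rw [sum_const, card_univ, Fintype.card_prod, Fintype.card_prod, smul_eq_mul]
          ring
  have hpos : 0 < Fintype.card (Fin 4 → Equiv.Perm X) := Fintype.card_pos
  have h4 : Fintype.card (Fin 4 → Equiv.Perm X) * m ^ t ≤ Fintype.card (Fin 4 → Equiv.Perm X) *
      (Fintype.card X ^ 3 * (4 * 2 ^ (4 * (K * K) * Fintype.card B) * k ^ t)) := by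
    refine h3.trans (le_of_eq ?_)
    ring
  exact absurd (Nat.le_of_mul_le_mul_left h4 hpos) (not_le.2 hnum)

end TS

end Pool.Agent.KS6_69.LCB
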