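import Pool.Agent.KS6_69.LCB.Sel

/-!
# Disjoint trades: a Latin cube which avoids a sparse set
-/

set_option autoImplicit false

namespace Pool.Agent.KS6_69.LCB

open Function Finset

namespace TS

variable {X B : Type} [Fintype X] [DecidableEq X] [Fintype B] [DecidableEq B] {K : ℕ}
  (T : TS X B K)

/-- a chosen element of a nonempty finite set -/
noncomputable def pick (C : Finset X) (h : C.Nonempty) : X := h.choose

theorem pick_mem (C : Finset X) (h : C.Nonempty) : pick C h ∈ C := h.choose_spec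

theorem pick_congr {C C' : Finset X} (h : C.Nonempty) (h' : C'.Nonempty) (e : C = C') :
    pick C h = pick C' h' := by subst e; rfl

/-- the representative of the class of `x` -/
noncomputable def rep (w x : X) : X := pick (T.cl w x) ⟨x, T.cl_self w x⟩

theorem rep_mem (w x : X) : T.rep w x ∈ T.cl w x := pick_mem _ _

theorem rep_eq (w x y : X) (h : y ∈ T.cl w x) : T.rep w y = T.rep w x :=
  pick_congr _ _ (T.cl_eq w x y h)

theorem cl_symm {w x y : X} (h : y ∈ T.cl w x) : x ∈ T.cl w y := by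
  rw [T.cl_eq w x y h]; exact T.cl_self w x

theorem S_symm {w : X} {b : B} {x y : X} (h : y ∈ T.S w b x) : x ∈ T.S w b y := by
  rw [T.S_eq w b x y h]; exact T.S_self w b x

/-- the class of `(v, x, y)` contains a conflict -/
def Con (F : Finset (Fin 4 → X)) (σ : Fin 4 → Equiv.Perm X) (v x y : X) : Prop :=
  ∃ x' ∈ T.cl v x, ∃ y' ∈ T.cl v y, act σ (T.qd v x' y') ∈ F

/-- the classes with a conflict -/
def Idx (F : Finset (Fin 4 → X)) (σ : Fin 4 → Equiv.Perm X) : Type :=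
  {p : X × X × X // T.rep p.1 p.2.1 = p.2.1 ∧ T.rep p.1 p.2.2 = p.2.2 ∧
    T.Con F σ p.1 p.2.1 p.2.2}

/-- the positions of the trade -/
def O (p : X × X × X) (b : B) : Finset (X × X × X) :=
  ({p.1, T.W p.1 b} : Finset X) ×ˢ (T.S p.1 b p.2.1 ×ˢ T.S p.1 b p.2.2)

theorem mem_O {p : X × X × X} {b : B} {e : X × X × X} :
    e ∈ T.O p b ↔ (e.1 = p.1 ∨ e.1 = T.W p.1 b) ∧ e.2.1 ∈ T.S p.1 b p.2.1 ∧
      e.2.2 ∈ T.S p.1 b p.2.2 := by
  simp [O, mem_product]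

theorem O_card (p : X × X × X) (b : B) : (T.O p b).card ≤ 2 * (K * K) := by
  unfold O
  rw [card_product]
  exact Nat.mul_le_mul (card_le_two) (T.prod_card _ _ _ _)

variable {F : Finset (Fin 4 → X)} {σ : Fin 4 → Equiv.Perm X}

/-- membership of the mixed and old quadruples in the danger set -/
theorem mem_D3 {w x y : X} {b : B} {x' y' : X} (hx : x' ∈ T.S w b x) (hy : y' ∈ T.S w b y) :
    T.qd (T.W w b) x' y' ∈ T.D w x y b := by
  unfold D
  refine mem_union_left _ (mem_union_right _ ?_)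
  exact mem_image.2 ⟨(x', y'), mem_product.2 ⟨hx, hy⟩, rfl⟩

theorem mem_D2 {w x y : X} {b : B} {x' y' : X} (hx : x' ∈ T.S w b x) (hy : y' ∈ T.S w b y)
    (hn : ¬ (x' ∈ T.cl w x ∧ y' ∈ T.cl w y)) : T.qd w x' y' ∈ T.D w x y b := by
  unfold D
  refine mem_union_right _ ?_
  exact mem_image.2 ⟨(x', y'), mem_filter.2 ⟨mem_product.2 ⟨hx, hy⟩, hn⟩, rfl⟩

theorem mem_D0 {w x y : X} {b : B} {x' y' : X} (hx : x' ∈ T.S w b x) (hy : y' ∈ T.S w b y) :
    T.mq w (T.W w b) x' y' ∈ T.D w x y b := by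
  unfold D
  refine mem_union_left _ (mem_union_left _ (mem_union_left _ ?_))
  exact mem_image.2 ⟨(x', y'), mem_product.2 ⟨hx, hy⟩, rfl⟩

theorem mem_D1 {w x y : X} {b : B} {x' y' : X} (hx : x' ∈ T.S w b x) (hy : y' ∈ T.S w b y) :
    T.mq (T.W w b) w x' y' ∈ T.D w x y b := by
  unfold D
  refine mem_union_left _ (mem_union_left _ (mem_union_right _ ?_))
  exact mem_image.2 ⟨(x', y'), mem_product.2 ⟨hx, hy⟩, rfl⟩

theorem mem_badb {w x y : X} {b : B} {q : Fin 4 → X} (hq : q ∈ T.D w x y b)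
    (hF : act σ q ∈ F) : b ∈ badb F (T.D w x y) σ := by
  unfold badb
  rw [mem_filter]
  exact ⟨mem_univ _, q, hq, hF⟩

/-- Case A. -/
theorem caseA {i j : T.Idx F σ} (hij : i ≠ j) {b b' : B}
    (hb' : b' ∉ badb F (T.D j.1.1 j.1.2.1 j.1.2.2) σ) {e : X × X × X}
    (hi : e ∈ T.O i.1 b) (hj : e ∈ T.O j.1 b') (hv : e.1 = i.1.1) :
    b ∈ badb F (T.D e.1 e.2.1 e.2.2) σ ∧ i.1.2.1 ∈ T.S e.1 b e.2.1 ∧
      i.1.2.2 ∈ T.S e.1 b e.2.2 := by
  obtain ⟨⟨w, x, y⟩, hrx, hry, x'', hx'', y'', hy'', hF⟩ := i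
  obtain ⟨⟨w', x', y'⟩, hrx', hry', hcj⟩ := j
  obtain ⟨v, x0, y0⟩ := e
  rw [mem_O] at hi hj
  simp only at hi hj hv hrx hry hrx' hry' hx'' hy'' hF hb' ⊢
  subst hv
  obtain ⟨-, hix, hiy⟩ := hi
  obtain ⟨hjv, hjx, hjy⟩ := hj
  have hx0 : x ∈ T.S v b x0 := T.S_symm hix
  have hy0 : y ∈ T.S v b y0 := T.S_symm hiy
  refine ⟨?_, hx0, hy0⟩
  -- the position is not in the class of `i`
  have hncl : ¬ (x0 ∈ T.cl v x ∧ y0 ∈ T.cl v y) := by
    rintro ⟨h1, h2⟩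
    have hx3 : x'' ∈ T.cl v x0 := by rw [T.cl_eq v x x0 h1]; exact hx''
    have hy3 : y'' ∈ T.cl v y0 := by rw [T.cl_eq v y y0 h2]; exact hy''
    rcases hjv with rfl | rfl
    · have h3 : x'' ∈ T.S v b' x' := by
        rw [← T.S_eq v b' x' x0 hjx]; exact T.cl_sub v b' x0 hx3
      have h4 : y'' ∈ T.S v b' y' := by
        rw [← T.S_eq v b' y' y0 hjy]; exact T.cl_sub v b' y0 hy3
      by_cases hc : x'' ∈ T.cl v x' ∧ y'' ∈ T.cl v y'
      · apply hij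
        have e1 : x = x' := by
          rw [← hrx, ← hrx', ← T.rep_eq v x x'' hx'', T.rep_eq v x' x'' hc.1]
        have e2 : y = y' := by
          rw [← hry, ← hry', ← T.rep_eq v y y'' hy'', T.rep_eq v y' y'' hc.2]
        subst e1 e2
        rfl
      · exact hb' (T.mem_badb (T.mem_D2 h3 h4 hc) hF)
    · have h3 : x'' ∈ T.S w' b' x' := by
        rw [← T.S_eq w' b' x' x0 hjx]; exact T.cl_sub' w' b' x0 hx3
      have h4 : y'' ∈ T.S w' b' y' := by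
        rw [← T.S_eq w' b' y' y0 hjy]; exact T.cl_sub' w' b' y0 hy3
      exact hb' (T.mem_badb (T.mem_D3 h3 h4) hF)
  have h5 : x'' ∈ T.S v b x0 := by
    rw [T.S_eq v b x x0 hix]; exact T.cl_sub v b x hx''
  have h6 : y'' ∈ T.S v b y0 := by
    rw [T.S_eq v b y y0 hiy]; exact T.cl_sub v b y hy''
  refine T.mem_badb (T.mem_D2 h5 h6 ?_) hF
  rintro ⟨h7, h8⟩
  apply hncl
  constructor
  · have := T.cl_symm h7
    rwa [T.cl_eq v x x'' hx''] at this
  · have := T.cl_symm h8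
    rwa [T.cl_eq v y y'' hy''] at this

/-- Case B. -/
theorem caseB {i : T.Idx F σ} {b : B} {e : X × X × X}
    (hi : e ∈ T.O i.1 b) (hv : e.1 = T.W i.1.1 b) {b' : B} (hb' : T.W e.1 b' = i.1.1)
    (hS : ∀ x, T.S e.1 b' x = T.S i.1.1 b x) :
    b' ∈ badb F (T.D e.1 e.2.1 e.2.2) σ ∧ i.1.2.1 ∈ T.S e.1 b' e.2.1 ∧
      i.1.2.2 ∈ T.S e.1 b' e.2.2 := by
  obtain ⟨⟨w, x, y⟩, hrx, hry, x'', hx'', y'', hy'', hF⟩ := i
  obtain ⟨v, x0, y0⟩ := e
  rw [mem_O] at hi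
  simp only at hi hv hrx hry hx'' hy'' hF hb' hS ⊢
  obtain ⟨-, hix, hiy⟩ := hi
  have hx0 : x ∈ T.S v b' x0 := by rw [hS]; exact T.S_symm hix
  have hy0 : y ∈ T.S v b' y0 := by rw [hS]; exact T.S_symm hiy
  refine ⟨?_, hx0, hy0⟩
  have h5 : x'' ∈ T.S v b' x0 := by
    rw [hS, T.S_eq w b x x0 hix]; exact T.cl_sub w b x hx''
  have h6 : y'' ∈ T.S v b' y0 := by
    rw [hS, T.S_eq w b y y0 hiy]; exact T.cl_sub w b y hy''
  have h7 := T.mem_D3 (w := v) (x := x0) (y := y0) (b := b') h5 h6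
  rw [hb'] at h7
  exact T.mem_badb h7 hF

end TS

end Pool.Agent.KS6_69.LCB
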