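import Pool.Agent.KS6_69.LCB.Sel2

/-!
# Disjoint trades: the degree bound and the conclusion
-/

set_option autoImplicit false

namespace Pool.Agent.KS6_69.LCB

open Function Finset

namespace TS

variable {X B : Type} [Fintype X] [DecidableEq X] [Fintype B] [DecidableEq B] {K : ℕ}
  (T : TS X B K)

variable {F : Finset (Fin 4 → X)} {σ : Fin 4 → Equiv.Perm X}

theorem card_biU (R : Finset B) (v x0 y0 : X) :
    (R.biUnion (fun b => (T.S v b x0 ×ˢ T.S v b y0).image (fun p => (b, p)))).card ≤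
      R.card * (K * K) :=
  card_biUnion_le_card_mul _ _ _ fun b _ => card_image_le.trans (T.prod_card v x0 y0 b)

theorem card_biU' (R : Finset (X × B)) (x0 y0 : X) :
    (R.biUnion (fun r => (T.S r.1 r.2 x0 ×ˢ T.S r.1 r.2 y0).image (fun p => (r, p)))).card ≤
      R.card * (K * K) :=
  card_biUnion_le_card_mul _ _ _ fun r _ => card_image_le.trans (T.prod_card r.1 x0 y0 r.2)

theorem degree {m β : ℕ} (hβ : ∀ w x y, (badb F (T.D w x y) σ).card ≤ β)
    (g : T.Idx F σ → Fin m → B) (hg : ∀ i, Function.Injective (g i))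
    (A : Finset (T.Idx F σ × Fin m)) (j : T.Idx F σ) (b' : B)
    (hb' : b' ∉ badb F (T.D j.1.1 j.1.2.1 j.1.2.2) σ) (e : X × X × X) (hj : e ∈ T.O j.1 b')
    (hA : ∀ a ∈ A, a.1 ≠ j ∧ e ∈ T.O a.1.1 (g a.1 a.2)) :
    A.card ≤ 2 * (β * (K * K)) + K * (K * K) := by
  classical
  set A1 := A.filter (fun a => e.1 = a.1.1.1) with hA1
  set A2 := A.filter (fun a => e.1 = T.W a.1.1.1 (g a.1 a.2) ∧ a.1.1.1 ∉ T.E) with hA2
  set A3 := A.filter (fun a => e.1 = T.W a.1.1.1 (g a.1 a.2) ∧ a.1.1.1 ∈ T.E) with hA3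
  have hsub : A ⊆ A1 ∪ (A2 ∪ A3) := by
    intro a ha
    have h1 := (T.mem_O.1 (hA a ha).2).1
    rw [mem_union, mem_union, hA1, hA2, hA3, mem_filter, mem_filter, mem_filter]
    rcases h1 with h1 | h1
    · exact Or.inl ⟨ha, h1⟩
    · by_cases h2 : a.1.1.1 ∈ T.E
      · exact Or.inr (Or.inr ⟨ha, h1, h2⟩)
      · exact Or.inr (Or.inl ⟨ha, h1, h2⟩)
  -- equality of pairs
  have hext : ∀ a c : T.Idx F σ × Fin m, a.1.1.1 = c.1.1.1 → a.1.1.2.1 = c.1.1.2.1 →
      a.1.1.2.2 = c.1.1.2.2 → g a.1 a.2 = g c.1 c.2 → a = c := by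
    rintro ⟨⟨⟨w, x, y⟩, h⟩, s⟩ ⟨⟨⟨w', x', y'⟩, h'⟩, s'⟩ h1 h2 h3 h4
    simp only at h1 h2 h3
    subst h1 h2 h3
    have := hg _ h4
    simp only at this
    subst this
    rfl
  -- A1
  have c1 : A1.card ≤ β * (K * K) := by
    refine le_trans ?_ ((T.card_biU (badb F (T.D e.1 e.2.1 e.2.2) σ) e.1 e.2.1 e.2.2).trans
      (Nat.mul_le_mul_right _ (hβ _ _ _)))
    refine card_le_card_of_injOn (fun a => (g a.1 a.2, (a.1.1.2.1, a.1.1.2.2))) ?_ ?_
    · intro a ha
      rw [mem_coe, hA1, mem_filter] at ha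
      obtain ⟨h1, h2, h3⟩ := T.caseA (hA a ha.1).1 hb' (hA a ha.1).2 hj ha.2
      rw [mem_coe, mem_biUnion]
      exact ⟨_, h1, mem_image.2 ⟨_, mem_product.2 ⟨h2, h3⟩, rfl⟩⟩
    · intro a ha c hc h
      rw [mem_coe, hA1, mem_filter] at ha hc
      simp only [Prod.mk.injEq] at h
      exact hext a c (ha.2.symm.trans hc.2) h.2.1 h.2.2 h.1
  -- A2
  have c2 : A2.card ≤ β * (K * K) := by
    have hback : ∀ a ∈ A2, ∃ b'', T.W e.1 b'' = a.1.1.1 ∧
        ∀ x, T.S e.1 b'' x = T.S a.1.1.1 (g a.1 a.2) x := by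
      intro a ha
      rw [hA2, mem_filter] at ha
      have := T.back a.1.1.1 (g a.1 a.2) ha.2.2
      rwa [← ha.2.1] at this
    haveI : Nonempty B := ⟨b'⟩
    choose! f hf1 hf2 using hback
    refine le_trans ?_ ((T.card_biU (badb F (T.D e.1 e.2.1 e.2.2) σ) e.1 e.2.1 e.2.2).trans
      (Nat.mul_le_mul_right _ (hβ _ _ _)))
    refine card_le_card_of_injOn (fun a => (f a, (a.1.1.2.1, a.1.1.2.2))) ?_ ?_
    · intro a ha
      rw [mem_coe] at ha
      have ha' := ha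
      rw [hA2, mem_filter] at ha'
      obtain ⟨h1, h2, h3⟩ := T.caseB (hA a ha'.1).2 ha'.2.1 (hf1 a ha) (hf2 a ha)
      rw [mem_coe, mem_biUnion]
      exact ⟨_, h1, mem_image.2 ⟨_, mem_product.2 ⟨h2, h3⟩, rfl⟩⟩
    · intro a ha c hc h
      rw [mem_coe] at ha hc
      simp only [Prod.mk.injEq] at h
      have h1 : a.1.1.1 = c.1.1.1 := by rw [← hf1 a ha, ← hf1 c hc, h.1]
      have ha' := ha
      have hc' := hc
      rw [hA2, mem_filter] at ha' hc'
      refine hext a c h1 h.2.1 h.2.2 ?_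
      have h2 := ha'.2.1.symm.trans hc'.2.1
      rw [← h1] at h2
      exact T.W_inj _ h2
  -- A3
  have c3 : A3.card ≤ K * (K * K) := by
    set R := (T.E ×ˢ (univ : Finset B)).filter (fun p => T.W p.1 p.2 = e.1) with hR
    have hRc : R.card ≤ K := by
      refine le_trans ?_ T.E_card
      refine card_le_card_of_injOn (fun p => p.1) ?_ ?_
      · intro p hp
        rw [mem_coe, hR, mem_filter, mem_product] at hp
        exact hp.1.1
      · intro p hp r hr h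
        rw [mem_coe, hR, mem_filter] at hp hr
        simp only at h
        have h2 : T.W p.1 p.2 = T.W p.1 r.2 := by rw [hp.2, h, hr.2]
        exact Prod.ext h (T.W_inj _ h2)
    refine le_trans ?_ ((T.card_biU' R e.2.1 e.2.2).trans (Nat.mul_le_mul_right _ hRc))
    refine card_le_card_of_injOn (fun a => ((a.1.1.1, g a.1 a.2), (a.1.1.2.1, a.1.1.2.2))) ?_ ?_
    · intro a ha
      rw [mem_coe, hA3, mem_filter] at ha
      have h1 := T.mem_O.1 (hA a ha.1).2
      rw [mem_coe, mem_biUnion]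
      refine ⟨(a.1.1.1, g a.1 a.2), ?_, mem_image.2 ⟨_, mem_product.2 ⟨T.S_symm h1.2.1,
        T.S_symm h1.2.2⟩, rfl⟩⟩
      rw [hR, mem_filter, mem_product]
      exact ⟨⟨ha.2.2, mem_univ _⟩, ha.2.1.symm⟩
    · intro a _ c _ h
      simp only [Prod.mk.injEq] at h
      exact hext a c h.1.1 h.2.1 h.2.2 h.1.2
  have h1 := card_le_card hsub
  have h2 := card_union_le A1 (A2 ∪ A3)
  have h3 := card_union_le A2 A3
  omega

/-- **A Latin cube avoiding `F`**, if all the trades have few bad choices. -/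
theorem avoid {m β : ℕ} (hβ : ∀ w x y, (badb F (T.D w x y) σ).card ≤ β)
    (hm0 : 0 < m) (hm : m + β ≤ Fintype.card B)
    (hΔ : 2 * (2 * (K * K) * (2 * (β * (K * K)) + K * (K * K))) ≤ m) :
    ∃ L : Set (Fin 4 → X), IsCube L ∧ ∀ q ∈ L, act σ q ∉ F := by
  classical
  -- the choices
  have hg : ∀ i : T.Idx F σ, ∃ g : Fin m → B, Function.Injective g ∧
      ∀ s, g s ∉ badb F (T.D i.1.1 i.1.2.1 i.1.2.2) σ := by
    intro i
    have h1 : m ≤ (univ \ badb F (T.D i.1.1 i.1.2.1 i.1.2.2) σ).card := by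
      rw [card_sdiff_of_subset (subset_univ _), card_univ]
      have := hβ i.1.1 i.1.2.1 i.1.2.2
      omega
    obtain ⟨U, hU, hUc⟩ := exists_subset_card_eq h1
    let eq := (U.equivFinOfCardEq hUc).symm
    refine ⟨fun s => (eq s : B), fun s t h => eq.injective (Subtype.ext h), fun s => ?_⟩
    have := hU (eq s).2
    rw [mem_sdiff] at this
    exact this.2
  choose g hginj hgood using hg
  haveI : Nonempty (Fin m) := ⟨⟨0, hm0⟩⟩
  haveI : Fintype (T.Idx F σ) := by unfold Idx; infer_instance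
  let adj : T.Idx F σ × Fin m → T.Idx F σ × Fin m → Prop := fun a z =>
    a.1 ≠ z.1 ∧ ∃ e, e ∈ T.O a.1.1 (g a.1 a.2) ∧ e ∈ T.O z.1.1 (g z.1 z.2)
  have hsymm : ∀ a z, adj a z → adj z a := by
    rintro a z ⟨h1, e, h2, h3⟩
    exact ⟨h1.symm, e, h3, h2⟩
  have hdeg : ∀ z, (univ.filter (fun a => adj a z)).card ≤
      2 * (K * K) * (2 * (β * (K * K)) + K * (K * K)) := by
    intro z
    have h1 : univ.filter (fun a => adj a z) ⊆ (T.O z.1.1 (g z.1 z.2)).biUnion
        (fun e => univ.filter (fun a : T.Idx F σ × Fin m =>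
          a.1 ≠ z.1 ∧ e ∈ T.O a.1.1 (g a.1 a.2))) := by
      intro a ha
      rw [mem_filter] at ha
      obtain ⟨-, h1, e, h2, h3⟩ := ha
      rw [mem_biUnion]
      refine ⟨e, h3, ?_⟩
      rw [mem_filter]
      exact ⟨mem_univ _, h1, h2⟩
    refine (card_le_card h1).trans ((card_biUnion_le_card_mul _ _ _ ?_).trans
      (Nat.mul_le_mul_right _ (T.O_card _ _)))
    intro e he
    refine T.degree hβ g hginj _ z.1 (g z.1 z.2) (hgood z.1 z.2) e he ?_
    intro a ha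
    rw [mem_filter] at ha
    exact ha.2
  obtain ⟨f, hf⟩ := Pool.Agent.KS6_69.LCB.Haxell.finite (adj := adj) hsymm (by
    intro P hP Z hZ
    by_contra hcon
    push Not at hcon
    have h1 : P ×ˢ (univ : Finset (Fin m)) ⊆
        Z.biUnion (fun z => univ.filter (fun a => adj a z)) := by
      intro a ha
      rw [mem_product] at ha
      obtain ⟨z, hz, h2⟩ := hcon a.1 ha.1 a.2
      rw [mem_biUnion]
      refine ⟨z, hz, ?_⟩
      rw [mem_filter]
      exact ⟨mem_univ _, h2⟩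
    have h2 := (card_le_card h1).trans (card_biUnion_le_card_mul _ _ _ fun z _ => hdeg z)
    rw [card_product, card_univ, Fintype.card_fin] at h2
    have h3 := hP.card_pos
    have h4 : Z.card * (2 * (K * K) * (2 * (β * (K * K)) + K * (K * K))) ≤
        2 * (P.card - 1) * (2 * (K * K) * (2 * (β * (K * K)) + K * (K * K))) :=
      Nat.mul_le_mul_right _ hZ
    have h5 : 2 * (P.card - 1) * (2 * (K * K) * (2 * (β * (K * K)) + K * (K * K))) =
        (P.card - 1) * (2 * (2 * (K * K) * (2 * (β * (K * K)) + K * (K * K)))) := by ring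
    have h6 := Nat.mul_le_mul_left (P.card - 1) hΔ
    have h7 : (P.card - 1) * m < P.card * m := Nat.mul_lt_mul_of_pos_right (by omega) hm0
    omega) univ
  -- the exchange
  set bb : T.Idx F σ → B := fun i => g i (f i) with hbb
  have hex := exchange T.isCube
    (fun i : T.Idx F σ => T.old i.1.1 (T.W i.1.1 (bb i)) (T.S i.1.1 (bb i) i.1.2.1)
      (T.S i.1.1 (bb i) i.1.2.2))
    (fun i => T.new i.1.1 (T.W i.1.1 (bb i)) (T.S i.1.1 (bb i) i.1.2.1)
      (T.S i.1.1 (bb i) i.1.2.2))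
    (fun i => T.old_sub _ _ _ _)
    (fun i => T.isTrade (T.W_ne _ _).symm (T.clo _ _ _) (T.clo _ _ _))
    (by
      intro i j q hi hj
      by_contra hij
      have hmem : ∀ k : T.Idx F σ, q ∈ T.old k.1.1 (T.W k.1.1 (bb k)) (T.S k.1.1 (bb k) k.1.2.1)
          (T.S k.1.1 (bb k) k.1.2.2) → ∃ e : X × X × X, e ∈ T.O k.1 (bb k) ∧
          q = T.qd e.1 e.2.1 e.2.2 := by
        rintro k ⟨x, hx, y, hy, h | h⟩
        · exact ⟨(_, x, y), T.mem_O.2 ⟨Or.inl rfl, hx, hy⟩, h⟩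
        · exact ⟨(_, x, y), T.mem_O.2 ⟨Or.inr rfl, hx, hy⟩, h⟩
      obtain ⟨e, he, hqe⟩ := hmem i hi
      obtain ⟨e', he', hqe'⟩ := hmem j hj
      have h1 := T.qd_inj (hqe.symm.trans hqe')
      have h2 : e = e' := Prod.ext h1.1 (Prod.ext h1.2.1 h1.2.2)
      subst h2
      exact hf i (mem_univ _) j (mem_univ _) hij ⟨hij, e, he, he'⟩)
  refine ⟨_, hex, ?_⟩
  intro q hq hF
  rcases hq with ⟨hqc, hqn⟩ | ⟨i, x, hx, y, hy, h⟩
  · have h1 := T.eq_qd hqc
    set w := T.sym (q 0) (q 1)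
    let i : T.Idx F σ := ⟨(w, T.rep w (q 0), T.rep w (q 2)),
      T.rep_eq w _ _ (T.rep_mem w _), T.rep_eq w _ _ (T.rep_mem w _),
      q 0, T.cl_symm (T.rep_mem w _), q 2, T.cl_symm (T.rep_mem w _), by rw [← h1]; exact hF⟩
    refine hqn i ⟨q 0, ?_, q 2, ?_, Or.inl h1⟩
    · exact T.cl_sub _ _ _ (T.cl_symm (T.rep_mem w _))
    · exact T.cl_sub _ _ _ (T.cl_symm (T.rep_mem w _))
  · have hgi := hgood i (f i)
    rcases h with rfl | rfl
    · exact hgi (T.mem_badb (T.mem_D0 hx hy) hF)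
    · exact hgi (T.mem_badb (T.mem_D1 hx hy) hF)

include T in
/-- Main theorem of this file. -/
theorem exists_cube {k : ℕ} (hF : Sparse F k) (t m m' : ℕ)
    (htm : t + m ≤ Fintype.card X)
    (hnum : Fintype.card X ^ 3 * (4 * 2 ^ (4 * (K * K) * Fintype.card B) * k ^ t) < m ^ t)
    (hm0 : 0 < m') (hm : m' + 4 * K * t ≤ Fintype.card B)
    (hΔ : 2 * (2 * (K * K) * (2 * (4 * K * t * (K * K)) + K * (K * K))) ≤ m') :
    ∃ L : Set (Fin 4 → X), IsCube L ∧ ∀ q ∈ L, q ∉ F := by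
  obtain ⟨σ, hσ⟩ := T.exists_sigma hF t m htm hnum
  obtain ⟨L, hL, hLF⟩ := T.avoid hσ hm0 hm hΔ
  refine ⟨_, hL.map σ, ?_⟩
  intro q hq
  have := hLF _ hq
  have e : act σ (fun i => (σ i).symm (q i)) = q := by
    funext i; simp [act]
  rwa [e] at this

end TS

end Pool.Agent.KS6_69.LCB
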