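import Pool.Agent.KS6_69.LCB.Cube

/-!
# Random permutations of the four coordinates hit a sparse set rarely
-/

set_option autoImplicit false

namespace Pool.Agent.KS6_69.LCB

open Function Finset

variable {X : Type} [Fintype X] [DecidableEq X]

/-- the action of four permutations on quadruples -/
def act (σ : Fin 4 → Equiv.Perm X) (q : Fin 4 → X) : Fin 4 → X := fun i => σ i (q i)

/-- every line contains at most `k` elements of `F` -/
def Sparse (F : Finset (Fin 4 → X)) (k : ℕ) : Prop :=
  ∀ (i : Fin 4) (t : Fin 4 → X), (univ.filter (fun a => update t i a ∈ F)).card ≤ k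

/-- the permutations which map all elements of `Q` into `F` -/
def hits (F Q : Finset (Fin 4 → X)) : Finset (Fin 4 → Equiv.Perm X) :=
  univ.filter (fun σ => ∀ q ∈ Q, act σ q ∈ F)

theorem mem_hits {F Q : Finset (Fin 4 → X)} {σ : Fin 4 → Equiv.Perm X} :
    σ ∈ hits F Q ↔ ∀ q ∈ Q, act σ q ∈ F := by simp [hits]

theorem hits_step {F : Finset (Fin 4 → X)} {k : ℕ} (hF : Sparse F k) (i : Fin 4)
    (Q : Finset (Fin 4 → X)) (q0 : Fin 4 → X) (hq : q0 i ∉ Q.image (fun q => q i)) :
    (hits F (insert q0 Q)).card * (Fintype.card X - (Q.image (fun q => q i)).card) ≤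
      k * (hits F Q).card := by
  classical
  set U := Q.image (fun q => q i) with hU
  have hUc : (univ \ U).card = Fintype.card X - U.card := by
    rw [card_sdiff_of_subset (subset_univ _), card_univ]
  rw [← hUc, ← card_product]
  -- the swap
  let φ : (Fin 4 → Equiv.Perm X) × X → (Fin 4 → Equiv.Perm X) × X :=
    fun p => (update p.1 i (p.1 i * Equiv.swap (q0 i) p.2), p.2)
  have hinj : Set.InjOn φ ((hits F (insert q0 Q)) ×ˢ (univ \ U) : Finset _) := by
    rintro ⟨σ, v⟩ - ⟨τ, u⟩ - h
    simp only [φ, Prod.mk.injEq] at h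
    obtain ⟨h1, rfl⟩ := h
    have h2 : ∀ j, σ j = τ j := by
      intro j
      have := congrFun h1 j
      by_cases hj : j = i
      · subst hj
        simp only [update_self] at this
        exact mul_right_cancel this
      · simpa [hj] using this
    simp [funext h2]
  have hmaps : ∀ p ∈ ((hits F (insert q0 Q)) ×ˢ (univ \ U) : Finset _), φ p ∈
      (hits F Q).biUnion (fun σ => (univ.filter (fun v =>
        update (act σ q0) i (σ i v) ∈ F)).image (fun v => (σ, v))) := by
    rintro ⟨σ, v⟩ hp
    rw [mem_product, mem_hits, mem_sdiff] at hp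
    obtain ⟨h1, -, h2⟩ := hp
    simp only at h1 h2
    rw [mem_biUnion]
    refine ⟨update σ i (σ i * Equiv.swap (q0 i) v), ?_, ?_⟩
    · rw [mem_hits]
      intro q hqQ
      have h3 : act (update σ i (σ i * Equiv.swap (q0 i) v)) q = act σ q := by
        funext j
        by_cases hj : j = i
        · subst hj
          simp only [act, update_self, Equiv.Perm.mul_apply]
          have hqU : q j ∈ U := mem_image_of_mem _ hqQ
          rw [Equiv.swap_apply_of_ne_of_ne]
          · rintro h; exact hq (h ▸ hqU)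
          · rintro h; exact h2 (h ▸ hqU)
        · simp [act, hj]
      rw [h3]
      exact h1 q (mem_insert_of_mem hqQ)
    · rw [mem_image]
      refine ⟨v, ?_, rfl⟩
      rw [mem_filter]
      refine ⟨mem_univ _, ?_⟩
      have h4 : update (act (update σ i (σ i * Equiv.swap (q0 i) v)) q0) i
          ((update σ i (σ i * Equiv.swap (q0 i) v)) i v) = act σ q0 := by
        funext j
        by_cases hj : j = i
        · subst hj
          simp [act]
        · simp [act, hj]
      rw [h4]
      exact h1 q0 (mem_insert_self _ _)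
  calc ((hits F (insert q0 Q)) ×ˢ (univ \ U)).card
      ≤ ((hits F Q).biUnion (fun σ => (univ.filter (fun v =>
        update (act σ q0) i (σ i v) ∈ F)).image (fun v => (σ, v)))).card :=
        card_le_card_of_injOn φ hmaps hinj
    _ ≤ (hits F Q).card * k := by
        refine card_biUnion_le_card_mul _ _ _ fun σ hσ => ?_
        refine card_image_le.trans ?_
        refine le_trans ?_ (hF i (act σ q0))
        refine card_le_card_of_injOn (fun v => σ i v) ?_ ?_
        · intro v hv
          simp only [coe_filter, mem_univ, true_and, Set.mem_ofPred_eq] at hv ⊢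
          exact hv
        · intro a _ b _ h
          exact (σ i).injective h
    _ = k * (hits F Q).card := Nat.mul_comm _ _

/-- the number of quadruples of permutations mapping `Q` into `F` -/
theorem hits_le {F : Finset (Fin 4 → X)} {k : ℕ} (hF : Sparse F k) (i : Fin 4) (m : ℕ)
    (Q : Finset (Fin 4 → X)) (hQ : Set.InjOn (fun q : Fin 4 → X => q i) Q)
    (hm : Q.card + m ≤ Fintype.card X) :
    (hits F Q).card * m ^ Q.card ≤ k ^ Q.card * Fintype.card (Fin 4 → Equiv.Perm X) := by
  classical
  induction Q using Finset.induction_on with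
  | empty =>
    simp only [card_empty, pow_zero, mul_one, one_mul]
    exact card_le_univ _
  | insert q0 Q hq0 ih =>
    have hQ' : Set.InjOn (fun q : Fin 4 → X => q i) Q :=
      hQ.mono (by rw [coe_insert]; exact Set.subset_insert _ _)
    rw [card_insert_of_notMem hq0] at hm ⊢
    have ih' := ih hQ' (by omega)
    have hq : q0 i ∉ Q.image (fun q => q i) := by
      intro h
      obtain ⟨q, hqQ, hqi⟩ := mem_image.1 h
      have := hQ (by simp [hqQ] : q ∈ ((insert q0 Q : Finset _) : Set (Fin 4 → X)))
        (by simp : q0 ∈ ((insert q0 Q : Finset _) : Set (Fin 4 → X))) hqi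
      exact hq0 (this ▸ hqQ)
    have hst := hits_step hF i Q q0 hq
    rw [card_image_of_injOn hQ'] at hst
    have h1 : (hits F (insert q0 Q)).card * m ≤ k * (hits F Q).card :=
      (Nat.mul_le_mul_left _ (by omega)).trans hst
    calc (hits F (insert q0 Q)).card * m ^ (Q.card + 1)
        = (hits F (insert q0 Q)).card * m * m ^ Q.card := by ring
      _ ≤ k * (hits F Q).card * m ^ Q.card := Nat.mul_le_mul_right _ h1
      _ = k * ((hits F Q).card * m ^ Q.card) := by ring
      _ ≤ k * (k ^ Q.card * Fintype.card (Fin 4 → Equiv.Perm X)) := Nat.mul_le_mul_left _ ih'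
      _ = k ^ (Q.card + 1) * Fintype.card (Fin 4 → Equiv.Perm X) := by ring

/-- The set of `b` for which some quadruple of `D b` is mapped into `F`. -/
def badb {B : Type} [Fintype B] (F : Finset (Fin 4 → X)) (D : B → Finset (Fin 4 → X))
    (σ : Fin 4 → Equiv.Perm X) : Finset B :=
  univ.filter (fun b => ∃ q ∈ D b, act σ q ∈ F)

/-- If many `b` are bad then many quadruples with different `i`-th coordinates are mapped
into `F`. -/
theorem exists_Q {B : Type} [Fintype B] [DecidableEq B] {F : Finset (Fin 4 → X)}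
    {D : B → Finset (Fin 4 → X)} (mv : B → Fin 4 → X → Prop) (K t : ℕ)
    (hmv : ∀ i u (T : Finset B), (∀ b ∈ T, mv b i u) → T.card ≤ K)
    (hD : ∀ b, ∀ q ∈ D b, ∃ i, mv b i (q i))
    {σ : Fin 4 → Equiv.Perm X} (hσ : 4 * K * t < (badb F D σ).card) :
    ∃ i : Fin 4, ∃ Q ∈ (univ.biUnion D).powerset, Q.card = t ∧
      Set.InjOn (fun q : Fin 4 → X => q i) Q ∧ σ ∈ hits F Q := by
  classical
  have h1 : ∀ b ∈ badb F D σ, ∃ q ∈ D b, act σ q ∈ F := by
    intro b hb
    simpa [badb] using hb
  obtain ⟨b0, hb0⟩ := card_pos.1 (lt_of_le_of_lt (Nat.zero_le _) hσ)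
  obtain ⟨q00, hq00, -⟩ := h1 b0 hb0
  haveI : Nonempty (Fin 4 → X) := ⟨q00⟩
  haveI : Nonempty B := ⟨b0⟩
  choose! g hg hgF using h1
  have h2 : ∀ b ∈ badb F D σ, ∃ i, mv b i (g b i) := fun b hb => hD b _ (hg b hb)
  choose! ι hι using h2
  -- a popular coordinate
  obtain ⟨i, hi⟩ : ∃ i : Fin 4, K * t < ((badb F D σ).filter (fun b => ι b = i)).card := by
    by_contra hcon
    push Not at hcon
    have h3 : (badb F D σ).card = ∑ i : Fin 4, ((badb F D σ).filter (fun b => ι b = i)).card :=
      card_eq_sum_card_fiberwise (fun b _ => mem_coe.2 (mem_univ _))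
    have h4 : ∑ i : Fin 4, ((badb F D σ).filter (fun b => ι b = i)).card ≤
        ∑ _i : Fin 4, K * t := sum_le_sum fun i _ => hcon i
    simp only [sum_const, card_univ, Fintype.card_fin, smul_eq_mul] at h4
    have : 4 * (K * t) = 4 * K * t := by ring
    omega
  set T := (badb F D σ).filter (fun b => ι b = i) with hT
  -- the values
  have h5 : t < (T.image (fun b => g b i)).card := by
    by_contra hcon
    push Not at hcon
    have h6 : T.card ≤ (T.image (fun b => g b i)).card * K := by
      rw [Nat.mul_comm]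
      refine card_le_mul_card_image (f := fun b => g b i) T K ?_
      intro u _
      refine hmv i u _ ?_
      intro b hb
      rw [mem_filter] at hb
      obtain ⟨hbT, hbu⟩ := hb
      rw [hT, mem_filter] at hbT
      have := hι b hbT.1
      rw [hbT.2, hbu] at this
      exact this
    have : (T.image (fun b => g b i)).card * K ≤ t * K := Nat.mul_le_mul_right _ hcon
    have h7 : K * t = t * K := Nat.mul_comm _ _
    omega
  -- choose representatives
  have h8 : ∀ u ∈ T.image (fun b => g b i), ∃ b ∈ T, g b i = u := by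
    intro u hu
    simpa using hu
  choose! r hrT hru using h8
  obtain ⟨U, hU, hUc⟩ := exists_subset_card_eq h5.le
  have hinj : Set.InjOn (fun u => g (r u)) (U : Set X) := by
    intro u hu v hv h
    simp only at h
    rw [← hru u (hU hu), ← hru v (hU hv), h]
  refine ⟨i, U.image (fun u => g (r u)), ?_, ?_, ?_, ?_⟩
  · rw [mem_powerset]
    intro q hq
    obtain ⟨u, hu, rfl⟩ := mem_image.1 hq
    have := hrT u (hU hu)
    rw [hT, mem_filter] at this
    exact mem_biUnion.2 ⟨r u, mem_univ _, hg _ this.1⟩
  · rw [card_image_of_injOn hinj, hUc]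
  · intro q hq q' hq' h
    simp only [coe_image, Set.mem_image, mem_coe] at hq hq'
    obtain ⟨u, hu, rfl⟩ := hq
    obtain ⟨v, hv, rfl⟩ := hq'
    simp only at h
    rw [hru u (hU hu), hru v (hU hv)] at h
    rw [h]
  · rw [mem_hits]
    intro q hq
    obtain ⟨u, hu, rfl⟩ := mem_image.1 hq
    have := hrT u (hU hu)
    rw [hT, mem_filter] at this
    exact hgF _ this.1

/-- The number of quadruples of permutations with many bad `b`. -/
theorem card_bad_le {B : Type} [Fintype B] [DecidableEq B] {F : Finset (Fin 4 → X)} {k : ℕ}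
    (hF : Sparse F k)
    {D : B → Finset (Fin 4 → X)} (mv : B → Fin 4 → X → Prop) (K t m M : ℕ)
    (hmv : ∀ i u (T : Finset B), (∀ b ∈ T, mv b i u) → T.card ≤ K)
    (hD : ∀ b, ∀ q ∈ D b, ∃ i, mv b i (q i)) (hM : ∀ b, (D b).card ≤ M)
    (htm : t + m ≤ Fintype.card X) :
    (univ.filter (fun σ : Fin 4 → Equiv.Perm X => 4 * K * t < (badb F D σ).card)).card * m ^ t ≤
      4 * 2 ^ (M * Fintype.card B) * (k ^ t * Fintype.card (Fin 4 → Equiv.Perm X)) := by
  classical
  set C := (univ : Finset (Fin 4)) ×ˢ (univ.biUnion D).powerset with hC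
  have h1 : (univ.filter (fun σ : Fin 4 → Equiv.Perm X => 4 * K * t < (badb F D σ).card)) ⊆
      (C.filter (fun p => p.2.card = t ∧ Set.InjOn (fun q : Fin 4 → X => q p.1) p.2)).biUnion
        (fun p => hits F p.2) := by
    intro σ hσ
    rw [mem_filter] at hσ
    obtain ⟨i, Q, hQ, hQt, hQi, hσQ⟩ := exists_Q mv K t hmv hD hσ.2
    rw [mem_biUnion]
    refine ⟨(i, Q), ?_, hσQ⟩
    rw [mem_filter, hC, mem_product]
    exact ⟨⟨mem_univ _, hQ⟩, hQt, hQi⟩
  have h2 : C.card ≤ 4 * 2 ^ (M * Fintype.card B) := by
    rw [hC, card_product, card_univ, Fintype.card_fin, card_powerset]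
    refine Nat.mul_le_mul_left _ (Nat.pow_le_pow_right (by norm_num) ?_)
    rw [Nat.mul_comm]
    refine (card_biUnion_le_card_mul _ _ M fun b _ => hM b).trans ?_
    rw [card_univ]
  calc (univ.filter (fun σ : Fin 4 → Equiv.Perm X => 4 * K * t < (badb F D σ).card)).card * m ^ t
      ≤ (∑ p ∈ C.filter (fun p => p.2.card = t ∧
          Set.InjOn (fun q : Fin 4 → X => q p.1) p.2), (hits F p.2).card) * m ^ t :=
        Nat.mul_le_mul_right _ ((card_le_card h1).trans card_biUnion_le)
    _ = ∑ p ∈ C.filter (fun p => p.2.card = t ∧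
          Set.InjOn (fun q : Fin 4 → X => q p.1) p.2), (hits F p.2).card * m ^ t := by
        rw [sum_mul]
    _ ≤ ∑ _p ∈ C.filter (fun p => p.2.card = t ∧
          Set.InjOn (fun q : Fin 4 → X => q p.1) p.2),
          k ^ t * Fintype.card (Fin 4 → Equiv.Perm X) := by
        refine sum_le_sum fun p hp => ?_
        rw [mem_filter] at hp
        obtain ⟨-, hp1, hp2⟩ := hp
        have := hits_le hF p.1 m p.2 hp2 (by omega)
        rwa [hp1] at this
    _ = (C.filter (fun p => p.2.card = t ∧
          Set.InjOn (fun q : Fin 4 → X => q p.1) p.2)).card *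
          (k ^ t * Fintype.card (Fin 4 → Equiv.Perm X)) := by
        rw [sum_const, smul_eq_mul]
    _ ≤ 4 * 2 ^ (M * Fintype.card B) * (k ^ t * Fintype.card (Fin 4 → Equiv.Perm X)) :=
        Nat.mul_le_mul_right _ ((card_filter_le _ _).trans h2)

end Pool.Agent.KS6_69.LCB
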