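import Pool.Agent.KS6_69.LCB.Swap

/-!
# Latin squares with short symbol cycles, and the Latin cubes `sym x s = sym y z`
-/

set_option autoImplicit false

namespace Pool.Agent.KS6_69.LCB

open Function Finset

/-- a Latin square: `sym x s` is the symbol in row `x` and column `s`, `col w x` the column of the
symbol `w` in row `x`, and `row w s` the row of the symbol `w` in column `s` -/
structure LS (X : Type) where
  sym : X → X → X
  col : X → X → X
  row : X → X → X
  sym_col : ∀ w x, sym x (col w x) = w
  col_sym : ∀ x s, col (sym x s) x = s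
  row_col : ∀ w x, row w (col w x) = x
  col_row : ∀ w s, col w (row w s) = s

namespace LS

variable {X : Type} (L : LS X)

theorem sym_eq_iff {x s w : X} : L.sym x s = w ↔ s = L.col w x := by
  constructor
  · rintro rfl; exact (L.col_sym x s).symm
  · rintro rfl; exact L.sym_col w x

theorem col_inj {w x y : X} (h : L.col w x = L.col w y) : x = y := by
  rw [← L.row_col w x, h, L.row_col]

theorem col_inj' {w v x : X} (h : L.col w x = L.col v x) : w = v := by
  rw [← L.sym_col w x, h, L.sym_col]

theorem row_sym (x s : X) : L.row (L.sym x s) s = x := by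
  have := L.row_col (L.sym x s) x
  rwa [L.col_sym] at this

/-- the quadruples `sym x s = sym y z` -/
def cube : Set (Fin 4 → X) := {q | L.sym (q 0) (q 1) = L.sym (q 2) (q 3)}

theorem isCube : IsCube L.cube := by
  intro i t
  fin_cases i
  · refine ⟨L.row (L.sym (t 2) (t 3)) (t 1), ?_, ?_⟩
    · simp only [cube, Set.mem_ofPred_eq]
      simp only [Fin.zero_eta, update_self, ne_eq, one_ne_zero, not_false_eq_true, update_of_ne,
        Fin.reduceEq]
      rw [L.sym_eq_iff, L.col_row]
    · intro b hb
      simp only [cube, Set.mem_ofPred_eq, Fin.zero_eta, update_self, ne_eq, one_ne_zero,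
        not_false_eq_true, update_of_ne, Fin.reduceEq] at hb
      rw [← hb, L.row_sym]
  · refine ⟨L.col (L.sym (t 2) (t 3)) (t 0), ?_, ?_⟩
    · simp only [cube, Set.mem_ofPred_eq]
      simp only [Fin.mk_one, update_self, ne_eq, zero_ne_one, not_false_eq_true, update_of_ne,
        Fin.reduceEq]
      rw [L.sym_col]
    · intro b hb
      simp only [cube, Set.mem_ofPred_eq, Fin.mk_one, update_self, ne_eq, zero_ne_one,
        not_false_eq_true, update_of_ne, Fin.reduceEq] at hb
      rw [← hb, L.col_sym]
  · refine ⟨L.row (L.sym (t 0) (t 1)) (t 3), ?_, ?_⟩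
    · simp only [cube, Set.mem_ofPred_eq]
      simp only [Fin.reduceFinMk, update_self, ne_eq, Fin.reduceEq, not_false_eq_true,
        update_of_ne]
      symm
      rw [L.sym_eq_iff, L.col_row]
    · intro b hb
      simp only [cube, Set.mem_ofPred_eq, Fin.reduceFinMk, update_self, ne_eq, Fin.reduceEq,
        not_false_eq_true, update_of_ne] at hb
      have := L.sym_eq_iff.1 hb.symm
      rw [this, L.row_col]
  · refine ⟨L.col (L.sym (t 0) (t 1)) (t 2), ?_, ?_⟩
    · simp only [cube, Set.mem_ofPred_eq]
      simp only [Fin.reduceFinMk, update_self, ne_eq, Fin.reduceEq, not_false_eq_true,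
        update_of_ne]
      rw [L.sym_col]
    · intro b hb
      simp only [cube, Set.mem_ofPred_eq, Fin.reduceFinMk, update_self, ne_eq, Fin.reduceEq,
        not_false_eq_true, update_of_ne] at hb
      exact L.sym_eq_iff.1 hb.symm

/-- the quadruple with symbol `w` and rows `x`, `y` -/
def qd (w x y : X) : Fin 4 → X := ![x, L.col w x, y, L.col w y]

/-- the mixed quadruple -/
def mq (w v x y : X) : Fin 4 → X := ![x, L.col w x, y, L.col v y]

theorem qd_mem (w x y : X) : L.qd w x y ∈ L.cube := by
  simp [cube, qd, L.sym_col]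

/-- all quadruples of the cube are of this form -/
theorem eq_qd {q : Fin 4 → X} (h : q ∈ L.cube) : q = L.qd (L.sym (q 0) (q 1)) (q 0) (q 2) := by
  funext i
  fin_cases i
  · simp [qd]
  · simp [qd, L.col_sym]
  · simp [qd]
  · simp only [cube, Set.mem_ofPred_eq] at h
    have := L.sym_eq_iff.1 h.symm
    simpa [qd] using this

theorem qd_inj {w v x x' y y' : X} (h : L.qd w x y = L.qd v x' y') : w = v ∧ x = x' ∧ y = y' := by
  have h0 := congrFun h 0
  have h1 := congrFun h 1
  have h2 := congrFun h 2
  simp only [qd, Matrix.cons_val_zero, Matrix.cons_val_one, Matrix.cons_val] at h0 h1 h2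
  subst h0 h2
  exact ⟨L.col_inj' h1, rfl, rfl⟩

/-- the old part of the trade with symbols `w`, `v` and row sets `A`, `B` -/
def old (w v : X) (A B : Set X) : Set (Fin 4 → X) :=
  {q | ∃ x ∈ A, ∃ y ∈ B, q = L.qd w x y ∨ q = L.qd v x y}

/-- the new part -/
def new (w v : X) (A B : Set X) : Set (Fin 4 → X) :=
  {q | ∃ x ∈ A, ∃ y ∈ B, q = L.mq w v x y ∨ q = L.mq v w x y}

theorem old_sub (w v : X) (A B : Set X) : L.old w v A B ⊆ L.cube := by
  rintro q ⟨x, -, y, -, rfl | rfl⟩ <;> exact L.qd_mem _ _ _

/-- closed row sets: the symbols `w` and `v` occur in the rows of `A` in the same columns -/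
def Clo (w v : X) (A : Set X) : Prop :=
  (∀ x ∈ A, ∃ x' ∈ A, L.col v x' = L.col w x) ∧ ∀ x ∈ A, ∃ x' ∈ A, L.col w x' = L.col v x

theorem update_eq_iff {i : Fin 4} {t q : Fin 4 → X} {a : X} :
    update t i a = q ↔ a = q i ∧ ∀ j, j ≠ i → t j = q j := by
  constructor
  · rintro rfl
    refine ⟨by simp, fun j hj => by simp [hj]⟩
  · rintro ⟨rfl, h⟩
    funext j
    by_cases hj : j = i
    · subst hj; simp
    · simp [hj, h j hj]

theorem agree {i : Fin 4} {t q q' : Fin 4 → X} {a : X} (h : update t i a = q)
    (hq : ∀ j, j ≠ i → q j = q' j) : update t i (q' i) = q' := by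
  rw [update_eq_iff] at h ⊢
  exact ⟨rfl, fun j hj => (h.2 j hj).trans (hq j hj)⟩

theorem isTrade {w v : X} (hwv : w ≠ v) {A B : Set X} (hA : L.Clo w v A) (hB : L.Clo w v B) :
    IsTrade (L.old w v A B) (L.new w v A B) := by
  constructor
  · rintro i t a ⟨x, hx, y, hy, h | h⟩
    · fin_cases i
      · obtain ⟨x', hx', e⟩ := hA.1 x hx
        refine ⟨_, x', hx', y, hy, Or.inr (agree h ?_)⟩
        intro j hj
        fin_cases j <;> simp_all [qd, mq]
      · refine ⟨_, x, hx, y, hy, Or.inr (agree h ?_)⟩
        intro j hj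
        fin_cases j <;> simp_all [qd, mq]
      · obtain ⟨y', hy', e⟩ := hB.1 y hy
        refine ⟨_, x, hx, y', hy', Or.inl (agree h ?_)⟩
        intro j hj
        fin_cases j <;> simp_all [qd, mq]
      · refine ⟨_, x, hx, y, hy, Or.inl (agree h ?_)⟩
        intro j hj
        fin_cases j <;> simp_all [qd, mq]
    · fin_cases i
      · obtain ⟨x', hx', e⟩ := hA.2 x hx
        refine ⟨_, x', hx', y, hy, Or.inl (agree h ?_)⟩
        intro j hj
        fin_cases j <;> simp_all [qd, mq]
      · refine ⟨_, x, hx, y, hy, Or.inl (agree h ?_)⟩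
        intro j hj
        fin_cases j <;> simp_all [qd, mq]
      · obtain ⟨y', hy', e⟩ := hB.2 y hy
        refine ⟨_, x, hx, y', hy', Or.inr (agree h ?_)⟩
        intro j hj
        fin_cases j <;> simp_all [qd, mq]
      · refine ⟨_, x, hx, y, hy, Or.inr (agree h ?_)⟩
        intro j hj
        fin_cases j <;> simp_all [qd, mq]
  · rintro i t a ⟨x, hx, y, hy, h | h⟩
    · fin_cases i
      · obtain ⟨x', hx', e⟩ := hA.1 x hx
        refine ⟨_, x', hx', y, hy, Or.inr (agree h ?_)⟩
        intro j hj
        fin_cases j <;> simp_all [qd, mq]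
      · refine ⟨_, x, hx, y, hy, Or.inr (agree h ?_)⟩
        intro j hj
        fin_cases j <;> simp_all [qd, mq]
      · obtain ⟨y', hy', e⟩ := hB.2 y hy
        refine ⟨_, x, hx, y', hy', Or.inl (agree h ?_)⟩
        intro j hj
        fin_cases j <;> simp_all [qd, mq]
      · refine ⟨_, x, hx, y, hy, Or.inl (agree h ?_)⟩
        intro j hj
        fin_cases j <;> simp_all [qd, mq]
    · fin_cases i
      · obtain ⟨x', hx', e⟩ := hA.2 x hx
        refine ⟨_, x', hx', y, hy, Or.inl (agree h ?_)⟩
        intro j hj
        fin_cases j <;> simp_all [qd, mq]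
      · refine ⟨_, x, hx, y, hy, Or.inl (agree h ?_)⟩
        intro j hj
        fin_cases j <;> simp_all [qd, mq]
      · obtain ⟨y', hy', e⟩ := hB.1 y hy
        refine ⟨_, x, hx, y', hy', Or.inr (agree h ?_)⟩
        intro j hj
        fin_cases j <;> simp_all [qd, mq]
      · refine ⟨_, x, hx, y, hy, Or.inr (agree h ?_)⟩
        intro j hj
        fin_cases j <;> simp_all [qd, mq]
  · have key : ∀ (i : Fin 4) (w v x y x' y' : X), w ≠ v →
        (∀ j, j ≠ i → L.mq w v x y j = L.mq w v x' y' j) → L.mq w v x y = L.mq w v x' y' := by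
      intro i w v x y x' y' hwv h
      have h0 := h 0
      have h1 := h 1
      have h2 := h 2
      have h3 := h 3
      simp only [mq, Matrix.cons_val_zero, Matrix.cons_val_one, Matrix.cons_val] at h0 h1 h2 h3
      fin_cases i
      · have e1 := h1 (by decide)
        have e2 := h2 (by decide)
        rw [L.col_inj e1, e2]
      · have e1 := h0 (by decide)
        have e2 := h2 (by decide)
        rw [e1, e2]
      · have e1 := h0 (by decide)
        have e2 := h3 (by decide)
        rw [e1, L.col_inj e2]
      · have e1 := h0 (by decide)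
        have e2 := h2 (by decide)
        rw [e1, e2]
    have key2 : ∀ (i : Fin 4) (w v x y x' y' : X), w ≠ v →
        (∀ j, j ≠ i → L.mq w v x y j = L.mq v w x' y' j) → False := by
      intro i w v x y x' y' hwv h
      have h0 := h 0
      have h1 := h 1
      have h2 := h 2
      have h3 := h 3
      simp only [mq, Matrix.cons_val_zero, Matrix.cons_val_one, Matrix.cons_val] at h0 h1 h2 h3
      fin_cases i
      · have e1 := h2 (by decide)
        have e2 := h3 (by decide)
        subst e1
        exact hwv (L.col_inj' e2).symm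
      · have e1 := h2 (by decide)
        have e2 := h3 (by decide)
        subst e1
        exact hwv (L.col_inj' e2).symm
      · have e1 := h0 (by decide)
        have e2 := h1 (by decide)
        subst e1
        exact hwv (L.col_inj' e2)
      · have e1 := h0 (by decide)
        have e2 := h1 (by decide)
        subst e1
        exact hwv (L.col_inj' e2)
    have fin : ∀ (i : Fin 4) (t : Fin 4 → X) (a b : X), update t i a = update t i b → a = b := by
      intro i t a b h
      have := congrFun h i
      simpa using this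
    have ag : ∀ (i : Fin 4) (t q q' : Fin 4 → X) (a b : X), update t i a = q →
        update t i b = q' → ∀ j, j ≠ i → q j = q' j := by
      rintro i t q q' a b rfl rfl j hj
      simp [hj]
    rintro i t a b ⟨x, hx, y, hy, h | h⟩ ⟨x', hx', y', hy', h' | h'⟩
    · exact fin i t a b (by rw [h, h']; exact key i w v x y x' y' hwv (ag i t _ _ a b h h'))
    · exact (key2 i w v x y x' y' hwv (ag i t _ _ a b h h')).elim
    · exact (key2 i v w x y x' y' hwv.symm (ag i t _ _ a b h h')).elim
    · exact fin i t a b (by rw [h, h']; exact key i v w x y x' y' hwv.symm (ag i t _ _ a b h h'))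

end LS

end Pool.Agent.KS6_69.LCB
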